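import Pool.Agent.Helper481.FixB

set_option autoImplicit false

/-!
# Goldbach partitions `N = p + p'` with `√N < p < 4 √N` for almost all even `N`, with `p` in all classes to all moduli up to `√N ^ (1 - o(1))`

For all even `N ≤ X` with at most `X / (log X) ^ A` exceptions there are primes `p`, `p'` with `p + p' = N` and `√N < p < 4 √N`. More
precisely, for these `N`:
(1) for all `Q ≤ √X exp (- B (log log X) ^ 2)` there is such a `p ≡ r (mod q)` for all but `Q ^ 2 / (log X) ^ A` of the pairs `(q, r)`,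
`q ≤ Q`, `r` and `N - r` reduced modulo `q` (the case `Q = 1` says that there is a partition);
(2) the numbers of the partitions with `p` in `(u, v]`, `v ≤ 4 √X`, `p ≡ r (mod q)` satisfy the formula of Hardy and Littlewood in mean
square over all these classes to all the moduli `q ≤ Q`, with arbitrary `u`, `v` in every class.

Proof. Let `K = 4 √X`. For ARBITRARY weights `w` on `(1, 1 + K]` and `E` = primes minus sieve model the sums
`∑_{m ≡ r (q)} w(m) E(n - m)` are small for almost all `n ≤ X` and almost all classes, by the bound for exponential sums over primes in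
almost all short intervals of length `≥ X ^ (1 / 3 + ε)` and the dispersion method (both from the work of helper24 of this team). With the
model instead of the primes `n - m` the sums are treated by the large sieve (`Bdh`, `Base`), for every `n`.
-/

namespace Pool.Agent.Results.MP_b58c63_nt.AlmostAllAllModuli

open Finset Pool.Agent.helper24_UT

/-- the number of the primes `p`, `u < p ≤ v`, `p ≡ r (mod q)` (for `r < q`), for which `N - p` is prime as well -/
def count (N q r u v : ℕ) : ℕ := ((Ioc u v).filter (fun p => p.Prime ∧ (N - p).Prime ∧ p % q = r)).card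

/-- `∑ 1 / (log m log (N - m))` over `u < m ≤ v`, `2 ≤ m ≤ N - 2` -/
noncomputable def expect (N u v : ℕ) : ℝ :=
  ∑ m ∈ (Ioc u v).filter (fun m => 2 ≤ m ∧ m + 2 ≤ N), 1 / (Real.log m * Real.log ((N - m : ℕ) : ℝ))

/-- the number of the classes `t` modulo `p` with `p ∣ t` or `p ∣ N - t` (`1` if `p ∣ N` and `2` otherwise) -/
def nu (N p : ℕ) : ℕ := ((range p).filter (fun t : ℕ => (p : ℤ) ∣ (t : ℤ) ∨ (p : ℤ) ∣ (N : ℤ) - (t : ℤ))).card

/-- the singular series `∏ (1 - nu(N, p) / p) / (1 - 1 / p) ^ 2` over all primes `p` -/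
noncomputable def sing (N : ℕ) : ℝ :=
  ∏' p : Nat.Primes, (1 - (nu N p : ℝ) / ((p : ℕ) : ℝ)) / (1 - 1 / ((p : ℕ) : ℝ)) ^ 2

/-- the classes `r` modulo `q` for which `r` and `N - r` are coprime to `q` -/
def classes (N q : ℕ) : Finset ℕ := (range q).filter (fun r => r.Coprime q ∧ Int.gcd ((N : ℤ) - r) q = 1)

/-- a prime `p ≡ r (mod q)` with `√N < p < 4 √N` such that `N - p` is prime -/
def Partition (N q r : ℕ) : Prop :=
  ∃ p : ℕ, p.Prime ∧ (N - p).Prime ∧ p % q = r ∧ Real.sqrt N < p ∧ (p : ℝ) < 4 * Real.sqrt N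

open Classical in
/-- the number of the pairs `(q, r)`, `1 ≤ q ≤ Q`, `r` and `N - r` reduced modulo `q`, without such a partition -/
noncomputable def exceptions (N Q : ℕ) : ℕ := ∑ q ∈ Icc 1 Q, ((classes N q).filter (fun r => ¬ Partition N q r)).card

/-- the two assertions for the even number `N` -/
def Holds (A B X N : ℕ) : Prop :=
  ∀ Q : ℕ, (Q : ℝ) ≤ Real.sqrt X * Real.exp (-(B * Real.log (Real.log X) ^ 2)) →
    (exceptions N Q : ℝ) ≤ (Q : ℝ) ^ 2 / (Real.log X) ^ A ∧
    ∀ u v : ℕ → ℕ → ℕ, (∀ q r, (v q r : ℝ) ≤ 4 * Real.sqrt X) →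
      ∑ q ∈ Icc 1 Q, ∑ r ∈ classes N q,
        ((count N q r (u q r) (v q r) : ℝ) - sing N / (classes N q).card * expect N (u q r) (v q r)) ^ 2 ≤
        X / (Real.log X) ^ A

lemma phf_eq (N q : ℕ) : phf sG (hG N) q = (classes N q).card := by
  unfold phf classes
  congr 1
  ext t
  simp only [mem_filter, mem_range, Fin.forall_fin_two, sG, hG, Matrix.cons_val_zero, Matrix.cons_val_one, one_mul, add_zero,
    Int.gcd_natCast_natCast]
  rw [show (-1 : ℤ) * t + N = (N : ℤ) - t by ring]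

lemma nuf_eq (N p : ℕ) : nuf sG (hG N) p = nu N p := by
  unfold nuf nu
  congr 1
  ext t
  simp only [mem_filter, mem_range, Fin.exists_fin_two, sG, hG, Matrix.cons_val_zero, Matrix.cons_val_one, one_mul, add_zero]
  rw [show (-1 : ℤ) * t + N = (N : ℤ) - t by ring]

lemma sers_eq (N : ℕ) : sers sG (hG N) = sing N := by
  unfold sers sing
  simp only [nuf_eq]

/-- the singular series is bounded from below for even `N` -/
lemma sing_ge : ∃ c : ℝ, 0 < c ∧ ∀ N : ℕ, 1 ≤ N → Even N → c ≤ sing N := by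
  obtain ⟨c, hc, h⟩ := Slb.main 2
  refine ⟨c, hc, fun N hN1 hN => ?_⟩
  rw [← sers_eq]
  have hσ : ∀ i, sG i = 1 ∨ sG i = -1 := by
    rw [Fin.forall_fin_two]
    simp [sG]
  have hne : ∀ i j, i ≠ j → sG i * hG N j ≠ sG j * hG N i := by
    rw [Fin.forall_fin_two]
    rw [Fin.forall_fin_two, Fin.forall_fin_two]
    simp only [sG, hG, Matrix.cons_val_zero, Matrix.cons_val_one]
    refine ⟨⟨fun h => absurd rfl h, fun _ => by omega⟩, fun _ => by omega, fun h => absurd rfl h⟩
  refine (h sG (hG N) hσ hne).2 fun p hp => ?_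
  rw [nuf_eq]
  unfold nu
  have hp2 := hp.two_le
  have key : ∃ t ∈ range p, ¬ ((p : ℤ) ∣ (t : ℤ) ∨ (p : ℤ) ∣ (N : ℤ) - (t : ℤ)) := by
    rcases hp.eq_two_or_odd' with h2 | h2
    · subst h2
      refine ⟨1, by simp, ?_⟩
      obtain ⟨k, hk⟩ := hN
      push_cast
      rintro (h3 | h3)
      · exact absurd h3 (by norm_num)
      · obtain ⟨j, hj⟩ := h3
        omega
    · have hp3 : 3 ≤ p := by
        rcases h2 with ⟨k, hk⟩
        omega
      by_cases h1 : (p : ℤ) ∣ (N : ℤ) - 1
      · refine ⟨2, by rw [mem_range]; omega, ?_⟩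
        push_cast
        rintro (h3 | h3)
        · have := Int.le_of_dvd (by norm_num) h3
          omega
        · have h4 := dvd_sub h1 h3
          have h5 : ((N : ℤ) - 1) - (N - 2) = 1 := by ring
          rw [h5] at h4
          have := Int.le_of_dvd (by norm_num) h4
          omega
      · refine ⟨1, by rw [mem_range]; omega, ?_⟩
        push_cast
        rintro (h3 | h3)
        · have := Int.le_of_dvd (by norm_num) h3
          omega
        · exact h1 h3
  obtain ⟨t, ht, hnt⟩ := key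
  have h1 : (range p).filter (fun t : ℕ => (p : ℤ) ∣ (t : ℤ) ∨ (p : ℤ) ∣ (N : ℤ) - (t : ℤ)) ⊂ range p :=
    filter_ssubset.2 ⟨t, ht, hnt⟩
  have h2 := card_lt_card h1
  rwa [card_range] at h2

lemma cnt_zero (N q r y : ℕ) (hy : y ≤ 1) : cntG N q r y = 0 := by
  unfold cntG
  rw [card_eq_zero, filter_eq_empty_iff]
  intro m hm
  rw [mem_Icc] at hm
  rintro ⟨_, hp, _⟩
  have := hp.two_le
  omega

lemma exp_zero (N y : ℕ) (hy : y ≤ 1) : expG N y = 0 := by
  unfold expG
  rw [Icc_eq_empty (by rw [not_le]; omega), sum_empty]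

lemma count_eq (N q r u v : ℕ) (h : u ≤ v) : (count N q r u v : ℝ) = cntG N q r v - cntG N q r u := by
  have h1 : (Icc 1 v).filter (fun m => m % q = r ∧ m.Prime ∧ m < N ∧ (N - m).Prime) =
      (Icc 1 u).filter (fun m => m % q = r ∧ m.Prime ∧ m < N ∧ (N - m).Prime) ∪
        (Ioc u v).filter (fun p => p.Prime ∧ (N - p).Prime ∧ p % q = r) := by
    ext m
    simp only [mem_union, mem_filter, mem_Icc, mem_Ioc]
    constructor
    · rintro ⟨⟨a1, a2⟩, a3, a4, a5, a6⟩
      by_cases hm : m ≤ u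
      · exact Or.inl ⟨⟨a1, hm⟩, a3, a4, a5, a6⟩
      · exact Or.inr ⟨⟨by omega, a2⟩, a4, a6, a3⟩
    · rintro (⟨⟨a1, a2⟩, a3, a4, a5, a6⟩ | ⟨⟨a1, a2⟩, a4, a6, a3⟩)
      · exact ⟨⟨a1, by omega⟩, a3, a4, a5, a6⟩
      · have := a6.two_le
        exact ⟨⟨by omega, a2⟩, a3, a4, by omega, a6⟩
  have h2 : Disjoint ((Icc 1 u).filter (fun m => m % q = r ∧ m.Prime ∧ m < N ∧ (N - m).Prime))
      ((Ioc u v).filter (fun p => p.Prime ∧ (N - p).Prime ∧ p % q = r)) := by
    rw [disjoint_left]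
    intro m hm hm2
    rw [mem_filter, mem_Icc] at hm
    rw [mem_filter, mem_Ioc] at hm2
    omega
  have h3 : cntG N q r v = cntG N q r u + count N q r u v := by
    unfold cntG count
    rw [h1, card_union_of_disjoint h2]
  rw [h3]
  push_cast
  ring

lemma expect_eq (N u v : ℕ) (h : u ≤ v) : expect N u v = expG N v - expG N u := by
  have h1 : Icc 2 (min v (N - 2)) = Icc 2 (min u (N - 2)) ∪ (Ioc u v).filter (fun m => 2 ≤ m ∧ m + 2 ≤ N) := by
    ext m
    simp only [mem_union, mem_filter, mem_Icc, mem_Ioc]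
    omega
  have h2 : Disjoint (Icc 2 (min u (N - 2))) ((Ioc u v).filter (fun m => 2 ≤ m ∧ m + 2 ≤ N)) := by
    rw [disjoint_left]
    intro m hm hm2
    rw [mem_Icc] at hm
    rw [mem_filter, mem_Ioc] at hm2
    omega
  unfold expG expect
  rw [h1, sum_union h2]
  ring

/-- initial segments -/
lemma initial {A B X K N : ℕ} (hG : Good15 A B X K 1 N) {Q : ℕ}
    (hQ : (Q : ℝ) ≤ K * Real.exp (-(B * Real.log (Real.log X) ^ 2))) (v : ℕ → ℕ → ℕ) (hv : ∀ q r, v q r ≤ K) :
    ∑ q ∈ Icc 1 Q, ∑ r ∈ classes N q, ((cntG N q r (v q r) : ℝ) - sing N / (classes N q).card * expG N (v q r)) ^ 2 ≤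
      (K : ℝ) ^ 2 / (Real.log X) ^ A := by
  have h := hG Q hQ (fun q r => v q r - 1) (fun q r => (Nat.sub_le _ _).trans (hv q r))
  refine le_trans (le_of_eq ?_) h
  apply sum_congr rfl
  intro q _
  apply sum_congr rfl
  intro r _
  have e1 : cntG N q r (1 + (v q r - 1)) = cntG N q r (v q r) := by
    rcases Nat.eq_zero_or_pos (v q r) with h0 | h0
    · rw [h0, cnt_zero N q r _ (by omega), cnt_zero N q r _ (by omega)]
    · congr 1
      omega
  have e2 : expG N (1 + (v q r - 1)) = expG N (v q r) := by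
    rcases Nat.eq_zero_or_pos (v q r) with h0 | h0
    · rw [h0, exp_zero N _ (by omega), exp_zero N _ (by omega)]
    · congr 1
      omega
  rw [e1, e2, cnt_zero N q r 1 le_rfl, exp_zero N 1 le_rfl, phf_eq, sers_eq]
  push_cast
  ring

/-- arbitrary segments -/
lemma segment {A B X K N : ℕ} (hG : Good15 A B X K 1 N) {Q : ℕ}
    (hQ : (Q : ℝ) ≤ K * Real.exp (-(B * Real.log (Real.log X) ^ 2))) (u v : ℕ → ℕ → ℕ) (hv : ∀ q r, v q r ≤ K) :
    ∑ q ∈ Icc 1 Q, ∑ r ∈ classes N q,
        ((count N q r (u q r) (v q r) : ℝ) - sing N / (classes N q).card * expect N (u q r) (v q r)) ^ 2 ≤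
      4 * ((K : ℝ) ^ 2 / (Real.log X) ^ A) := by
  have h1 := initial hG hQ v hv
  have h2 := initial hG hQ (fun q r => min (u q r) (v q r)) (fun q r => (min_le_right _ _).trans (hv q r))
  calc _ ≤ ∑ q ∈ Icc 1 Q, ∑ r ∈ classes N q,
        (2 * ((cntG N q r (v q r) : ℝ) - sing N / (classes N q).card * expG N (v q r)) ^ 2 +
        2 * ((cntG N q r (min (u q r) (v q r)) : ℝ) -
          sing N / (classes N q).card * expG N (min (u q r) (v q r))) ^ 2) := by
        apply sum_le_sum
        intro q _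
        apply sum_le_sum
        intro r _
        have e1 : count N q r (u q r) (v q r) = count N q r (min (u q r) (v q r)) (v q r) := by
          rcases le_total (u q r) (v q r) with h | h
          · rw [min_eq_left h]
          · rw [min_eq_right h]
            unfold count
            rw [Ioc_eq_empty (by omega), Ioc_self]
        have e2 : expect N (u q r) (v q r) = expect N (min (u q r) (v q r)) (v q r) := by
          rcases le_total (u q r) (v q r) with h | h
          · rw [min_eq_left h]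
          · rw [min_eq_right h]
            unfold expect
            rw [Ioc_eq_empty (by omega), Ioc_self]
        rw [e1, e2, count_eq N q r _ _ (min_le_right _ _), expect_eq N _ _ (min_le_right _ _)]
        have e3 : (cntG N q r (v q r) : ℝ) - cntG N q r (min (u q r) (v q r)) -
            sing N / (classes N q).card * (expG N (v q r) - expG N (min (u q r) (v q r))) =
            ((cntG N q r (v q r) : ℝ) - sing N / (classes N q).card * expG N (v q r)) -
            ((cntG N q r (min (u q r) (v q r)) : ℝ) -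
              sing N / (classes N q).card * expG N (min (u q r) (v q r))) := by ring
        rw [e3]
        nlinarith [sq_nonneg (((cntG N q r (v q r) : ℝ) - sing N / (classes N q).card * expG N (v q r)) +
            ((cntG N q r (min (u q r) (v q r)) : ℝ) -
              sing N / (classes N q).card * expG N (min (u q r) (v q r))))]
    _ = 2 * (∑ q ∈ Icc 1 Q, ∑ r ∈ classes N q,
        ((cntG N q r (v q r) : ℝ) - sing N / (classes N q).card * expG N (v q r)) ^ 2) +
        2 * (∑ q ∈ Icc 1 Q, ∑ r ∈ classes N q, ((cntG N q r (min (u q r) (v q r)) : ℝ) -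
          sing N / (classes N q).card * expG N (min (u q r) (v q r))) ^ 2) := by
        simp only [sum_add_distrib, mul_sum]
    _ ≤ _ := by linarith

/-- the interval `(√N, 4 √N)` -/
lemma window (N p : ℕ) (hN : 1 ≤ N) :
    p ∈ Ioc (Nat.sqrt N) (Nat.sqrt (16 * N - 1)) ↔ (Real.sqrt N < p ∧ (p : ℝ) < 4 * Real.sqrt N) := by
  have hN0 : (0 : ℝ) ≤ N := Nat.cast_nonneg N
  have hs := Real.sq_sqrt hN0
  have hs0 := Real.sqrt_nonneg (N : ℝ)
  have hp0 : (0 : ℝ) ≤ p := Nat.cast_nonneg p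
  rw [mem_Ioc]
  have h1 : Nat.sqrt N < p ↔ Real.sqrt N < p := by
    rw [Nat.sqrt_lt]
    constructor
    · intro h
      have h2 : (N : ℝ) < p * p := by exact_mod_cast h
      rw [← Real.sqrt_mul_self hp0]
      exact Real.sqrt_lt_sqrt hN0 h2
    · intro h
      have h2 : (N : ℝ) < p * p := by nlinarith
      exact_mod_cast h2
  have h2 : p ≤ Nat.sqrt (16 * N - 1) ↔ (p : ℝ) < 4 * Real.sqrt N := by
    rw [Nat.le_sqrt]
    constructor
    · intro h
      have h3 : p * p < 16 * N := by omega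
      have h4 : (p : ℝ) * p < 16 * N := by exact_mod_cast h3
      by_contra hcon
      rw [not_lt] at hcon
      nlinarith
    · intro h
      have h4 : (p : ℝ) * p < 16 * N := by nlinarith
      have h3 : p * p < 16 * N := by exact_mod_cast h4
      omega
  rw [h1, h2]

/-- the size of the interval -/
lemma window_size (N : ℕ) (hN : 1 ≤ N) :
    Real.sqrt N ≤ (Nat.sqrt (16 * N - 1) : ℝ) - Nat.sqrt N ∧ (Nat.sqrt (16 * N - 1) : ℝ) < 4 * Real.sqrt N ∧
      Nat.sqrt N ≤ Nat.sqrt (16 * N - 1) ∧ 1 ≤ Nat.sqrt N := by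
  have hN0 : (1 : ℝ) ≤ N := by exact_mod_cast hN
  have hs := Real.sq_sqrt (show (0 : ℝ) ≤ N by linarith)
  have hs0 : 1 ≤ Real.sqrt (N : ℝ) := by
    rw [Real.one_le_sqrt]
    exact hN0
  have h1 : 16 * N - 1 < (Nat.sqrt (16 * N - 1) + 1) * (Nat.sqrt (16 * N - 1) + 1) := Nat.lt_succ_sqrt _
  have h2 : (16 : ℝ) * N ≤ ((Nat.sqrt (16 * N - 1) : ℝ) + 1) * (Nat.sqrt (16 * N - 1) + 1) := by
    have h3 : 16 * N ≤ (Nat.sqrt (16 * N - 1) + 1) * (Nat.sqrt (16 * N - 1) + 1) := by omega
    exact_mod_cast h3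
  have h4 : 4 * Real.sqrt N ≤ (Nat.sqrt (16 * N - 1) : ℝ) + 1 := by
    by_contra hcon
    rw [not_le] at hcon
    have h5 : (0 : ℝ) ≤ Nat.sqrt (16 * N - 1) := Nat.cast_nonneg _
    nlinarith
  have h6 : (Nat.sqrt N : ℝ) ≤ Real.sqrt N := Real.nat_sqrt_le_real_sqrt
  have h7 : (Nat.sqrt (16 * N - 1) : ℝ) * Nat.sqrt (16 * N - 1) < 16 * N := by
    have h8 : Nat.sqrt (16 * N - 1) * Nat.sqrt (16 * N - 1) < 16 * N := by
      have := Nat.sqrt_le (16 * N - 1)
      omega
    exact_mod_cast h8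
  refine ⟨by linarith, ?_, Nat.sqrt_le_sqrt (by omega), ?_⟩
  · by_contra hcon
    rw [not_lt] at hcon
    nlinarith
  · rw [Nat.le_sqrt]
    omega

/-- the lower bound for the expected number -/
lemma expect_ge {N X : ℕ} (hN : 36 ≤ N) (hNX : N ≤ X) (hL : 0 < Real.log X) :
    Real.sqrt N / Real.log X ^ 2 ≤ expect N (Nat.sqrt N) (Nat.sqrt (16 * N - 1)) := by
  obtain ⟨h1, h2, h3, h4⟩ := window_size N (by omega)
  have hs : Real.sqrt N * Real.sqrt N = N := Real.mul_self_sqrt (Nat.cast_nonneg N)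
  have hs6 : 6 ≤ Real.sqrt (N : ℝ) := by
    rw [Real.le_sqrt' (by norm_num)]
    have : (36 : ℝ) ≤ N := by exact_mod_cast hN
    linarith
  have hb : Nat.sqrt (16 * N - 1) + 2 ≤ N := by
    have h5 : (Nat.sqrt (16 * N - 1) : ℝ) + 2 ≤ N := by nlinarith
    exact_mod_cast h5
  have hs2 : 2 ≤ Nat.sqrt N + 1 := by omega
  have hfil : (Ioc (Nat.sqrt N) (Nat.sqrt (16 * N - 1))).filter (fun m => 2 ≤ m ∧ m + 2 ≤ N) =
      Ioc (Nat.sqrt N) (Nat.sqrt (16 * N - 1)) := by
    apply filter_true_of_mem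
    intro m hm
    rw [mem_Ioc] at hm
    omega
  unfold expect
  rw [hfil]
  have hcard : ((Ioc (Nat.sqrt N) (Nat.sqrt (16 * N - 1))).card : ℝ) = (Nat.sqrt (16 * N - 1) : ℝ) - Nat.sqrt N := by
    rw [Nat.card_Ioc, Nat.cast_sub h3]
  calc Real.sqrt N / Real.log X ^ 2 ≤ ((Nat.sqrt (16 * N - 1) : ℝ) - Nat.sqrt N) / Real.log X ^ 2 :=
        div_le_div_of_nonneg_right h1 (by positivity)
    _ = ∑ _m ∈ Ioc (Nat.sqrt N) (Nat.sqrt (16 * N - 1)), 1 / Real.log X ^ 2 := by
        rw [sum_const, nsmul_eq_mul, hcard, mul_one_div]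
    _ ≤ _ := by
        apply sum_le_sum
        intro m hm
        rw [mem_Ioc] at hm
        have e1 : 0 < Real.log m := Real.log_pos (by exact_mod_cast (by omega : 1 < m))
        have e2 : 0 < Real.log ((N - m : ℕ) : ℝ) := Real.log_pos (by exact_mod_cast (by omega : 1 < N - m))
        have e3 : Real.log m ≤ Real.log X :=
          Real.log_le_log (by exact_mod_cast (by omega : 0 < m)) (by exact_mod_cast (by omega : m ≤ X))
        have e4 : Real.log ((N - m : ℕ) : ℝ) ≤ Real.log X :=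
          Real.log_le_log (by exact_mod_cast (by omega : 0 < N - m)) (by exact_mod_cast (by omega : N - m ≤ X))
        apply one_div_le_one_div_of_le (by positivity)
        rw [sq]
        exact mul_le_mul e3 e4 e2.le hL.le

/-- the exceptional pairs and the mean square -/
lemma exceptions_le {N X Q : ℕ} {c M : ℝ} (hN : 36 ≤ N) (hNX : N ≤ X) (hL : 0 < Real.log X) (hc : 0 < c) (hs : c ≤ sing N)
    (hM : ∑ q ∈ Icc 1 Q, ∑ r ∈ classes N q,
        ((count N q r (Nat.sqrt N) (Nat.sqrt (16 * N - 1)) : ℝ) -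
          sing N / (classes N q).card * expect N (Nat.sqrt N) (Nat.sqrt (16 * N - 1))) ^ 2 ≤ M) :
    (exceptions N Q : ℝ) * (c ^ 2 * N / Real.log X ^ 4) ≤ (Q : ℝ) ^ 2 * M := by
  classical
  rcases Nat.eq_zero_or_pos Q with hQ0 | hQ0
  · subst hQ0
    unfold exceptions
    simp
  have hQr : (0 : ℝ) < Q := by exact_mod_cast hQ0
  have hE := expect_ge hN hNX hL
  set E := expect N (Nat.sqrt N) (Nat.sqrt (16 * N - 1)) with hEdef
  have hE0 : 0 ≤ Real.sqrt N / Real.log X ^ 2 := by positivity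
  have hterm : ∀ q ∈ Icc 1 Q, (((classes N q).filter (fun r => ¬ Partition N q r)).card : ℝ) *
      (c ^ 2 * N / Real.log X ^ 4 / (Q : ℝ) ^ 2) ≤ ∑ r ∈ classes N q,
        ((count N q r (Nat.sqrt N) (Nat.sqrt (16 * N - 1)) : ℝ) - sing N / (classes N q).card * E) ^ 2 := by
    intro q hq
    rw [mem_Icc] at hq
    calc (((classes N q).filter (fun r => ¬ Partition N q r)).card : ℝ) * (c ^ 2 * N / Real.log X ^ 4 / (Q : ℝ) ^ 2) =
          ∑ _r ∈ (classes N q).filter (fun r => ¬ Partition N q r), c ^ 2 * N / Real.log X ^ 4 / (Q : ℝ) ^ 2 := by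
          rw [sum_const, nsmul_eq_mul]
      _ ≤ ∑ r ∈ (classes N q).filter (fun r => ¬ Partition N q r),
          ((count N q r (Nat.sqrt N) (Nat.sqrt (16 * N - 1)) : ℝ) - sing N / (classes N q).card * E) ^ 2 := by
          apply sum_le_sum
          intro r hr
          rw [mem_filter] at hr
          have h0 : count N q r (Nat.sqrt N) (Nat.sqrt (16 * N - 1)) = 0 := by
            unfold count
            rw [card_eq_zero, filter_eq_empty_iff]
            intro p hp
            rintro ⟨a1, a2, a3⟩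
            exact hr.2 ⟨p, a1, a2, a3, (window N p (by omega)).1 hp⟩
          rw [h0, Nat.cast_zero, zero_sub, neg_sq]
          have hcl0 : (0 : ℝ) < (classes N q).card := by
            exact_mod_cast card_pos.2 ⟨r, hr.1⟩
          have hclQ : ((classes N q).card : ℝ) ≤ Q := by
            have h5 : (classes N q).card ≤ q := by
              unfold classes
              exact (card_filter_le _ _).trans (by rw [card_range])
            exact_mod_cast h5.trans hq.2
          have h6 : c / Q * (Real.sqrt N / Real.log X ^ 2) ≤ sing N / (classes N q).card * E := by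
            apply mul_le_mul _ hE hE0 (div_nonneg (by linarith) hcl0.le)
            exact div_le_div₀ (by linarith) hs hcl0 hclQ
          have h7 : c ^ 2 * N / Real.log X ^ 4 / (Q : ℝ) ^ 2 = (c / Q * (Real.sqrt N / Real.log X ^ 2)) ^ 2 := by
            rw [mul_pow, div_pow, div_pow, Real.sq_sqrt (Nat.cast_nonneg N)]
            field_simp
          rw [h7]
          exact pow_le_pow_left₀ (by positivity) h6 2
      _ ≤ _ := sum_le_sum_of_subset_of_nonneg (filter_subset _ _) fun _ _ _ => sq_nonneg _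
  have hsum := (sum_le_sum hterm).trans hM
  rw [← sum_mul] at hsum
  unfold exceptions
  push_cast
  rw [mul_div_assoc', div_le_iff₀ (by positivity)] at hsum
  linarith

/-- the conditions for `X` -/
lemma large (M : ℝ) (A : ℕ) : ∃ X₀ : ℕ, ∀ X : ℕ, X₀ ≤ X → M ≤ Real.log X ∧ 1 ≤ Real.log X ∧ 16 ≤ X ∧
    36 * Real.log X ^ (A + 1) ≤ X ∧ (X : ℝ) ^ (1 / 3 + 1 / (12 : ℕ) : ℝ) ≤ Real.sqrt X := by
  obtain ⟨n1, h1⟩ := Pool.Agent.H373R2.T7.ev_L' M
  obtain ⟨n2, h2⟩ := Pool.Agent.H373R2.T7.ev_L' 1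
  have e3 : ∀ᶠ x : ℝ in Filter.atTop, ‖Real.log x ^ (A + 1)‖ ≤ 1 / 36 * ‖x ^ (1 : ℝ)‖ := by
    have := isLittleO_log_rpow_rpow_atTop (s := 1) ((A + 1 : ℕ) : ℝ) (by norm_num)
    have h2 := this.bound (show (0 : ℝ) < 1 / 36 by norm_num)
    filter_upwards [h2] with x hx
    rw [Real.rpow_natCast] at hx
    exact hx
  obtain ⟨n3, h3⟩ := Filter.eventually_atTop.1 ((tendsto_natCast_atTop_atTop (R := ℝ)).eventually e3)
  refine ⟨max (max n1 n2) (max n3 16), fun X hX => ⟨h1 X (by omega), h2 X (by omega), by omega, ?_, ?_⟩⟩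
  · have h4 := h3 X (by omega)
    have h5 : 1 ≤ Real.log (X : ℝ) := h2 X (by omega)
    rw [Real.norm_eq_abs, Real.norm_eq_abs, abs_of_nonneg (by positivity), Real.rpow_one, abs_of_nonneg (Nat.cast_nonneg X)] at h4
    linarith
  have hX1 : (1 : ℝ) ≤ X := by exact_mod_cast (by omega : 1 ≤ X)
  rw [Real.sqrt_eq_rpow]
  apply Real.rpow_le_rpow_of_exponent_le hX1
  norm_num

open Classical in
/-- **Goldbach partitions with a prime between `√N` and `4 √N`, for almost all even `N`, in almost all classes to almost all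
moduli.** For every `A` there are `B`, `X₀` such that for all `X ≥ X₀` all even numbers `N ≤ X` with at most `X / (log X) ^ A` exceptions
satisfy `Holds A B X N`. -/
theorem result : ∀ A : ℕ, ∃ B X₀ : ℕ, ∀ X : ℕ, X₀ ≤ X →
    (((Icc 1 X).filter (fun N => Even N ∧ ¬ Holds A B X N)).card : ℝ) ≤ X / (Real.log X) ^ A := by
  intro A
  obtain ⟨c, hc, hsing⟩ := sing_ge
  obtain ⟨B, X₁, hG⟩ := Pool.Agent.Helper481.Fix.S.t_G1 12 (2 * A + 6) (by norm_num)
  obtain ⟨X₂, hlarge⟩ := large (64 / c ^ 2 + 100) A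
  refine ⟨B, max X₁ (X₂ + 100), fun X hX => ?_⟩
  obtain ⟨hLM, hL1, hX16, hX36, hXp⟩ := hlarge X (by omega)
  have hX0 : (0 : ℝ) < X := by exact_mod_cast (by omega : 0 < X)
  have hX1 : (1 : ℝ) ≤ X := by exact_mod_cast (by omega : 1 ≤ X)
  have hc2 : 0 < 64 / c ^ 2 := by positivity
  set L := Real.log (X : ℝ) with hLd
  have hL0 : 0 < L := by linarith
  have hL100 : 100 ≤ L := by linarith
  have hLc : 64 / c ^ 2 ≤ L := by linarith
  set K : ℕ := ⌊4 * Real.sqrt X⌋₊ with hK
  have hsX : Real.sqrt X * Real.sqrt X = X := Real.mul_self_sqrt hX0.le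
  have hsX1 : 4 ≤ Real.sqrt (X : ℝ) := by
    rw [Real.le_sqrt' (by norm_num)]
    have : (16 : ℝ) ≤ X := by exact_mod_cast hX16
    linarith
  have hK1 : (K : ℝ) ≤ 4 * Real.sqrt X := Nat.floor_le (by positivity)
  have hK2 : Real.sqrt X ≤ K := by
    have h1 : 4 * Real.sqrt X < (K : ℝ) + 1 := Nat.lt_floor_add_one _
    linarith
  have hKX : K ≤ X := by
    have h1 : (K : ℝ) ≤ X := by nlinarith
    exact_mod_cast h1
  have hK3 : (K : ℝ) ^ 2 ≤ 16 * X := by
    calc (K : ℝ) ^ 2 ≤ (4 * Real.sqrt X) ^ 2 := pow_le_pow_left₀ (Nat.cast_nonneg _) hK1 2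
      _ = 16 * (Real.sqrt X * Real.sqrt X) := by ring
      _ = 16 * X := by rw [hsX]
  have hexc := hG X (by omega) K (hXp.trans hK2) hKX
  have hM0 : 4 * ((K : ℝ) ^ 2 / L ^ (2 * A + 6)) ≤ 64 * X / L ^ (2 * A + 6) := by
    rw [← mul_div_assoc]
    apply div_le_div_of_nonneg_right _ (by positivity)
    linarith
  -- the good numbers
  have hgood : ∀ N ∈ Icc 1 X, Even N → (X : ℝ) / L ^ (A + 1) ≤ N → Good15 (2 * A + 6) B X K 1 N → Holds A B X N := by
    intro N hN hNe hNX hg Q hQ
    rw [mem_Icc] at hN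
    have hQK : (Q : ℝ) ≤ K * Real.exp (-(B * Real.log (Real.log X) ^ 2)) :=
      hQ.trans (mul_le_mul_of_nonneg_right hK2 (Real.exp_pos _).le)
    have h36 : 36 ≤ N := by
      have h1 : (36 : ℝ) ≤ X / L ^ (A + 1) := by
        rw [le_div_iff₀ (by positivity)]
        exact hX36
      have h2 : (36 : ℝ) ≤ N := h1.trans hNX
      exact_mod_cast h2
    constructor
    · have hwK : ∀ q r : ℕ, (fun _ _ => Nat.sqrt (16 * N - 1) : ℕ → ℕ → ℕ) q r ≤ K := by
        intro _ _
        apply Nat.le_floor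
        have h1 := (window_size N hN.1).2.1
        have h2 : Real.sqrt N ≤ Real.sqrt X := Real.sqrt_le_sqrt (by exact_mod_cast hN.2)
        simp only
        linarith
      have hseg := segment hg hQK (fun _ _ => Nat.sqrt N) (fun _ _ => Nat.sqrt (16 * N - 1)) hwK
      have h1 := exceptions_le h36 hN.2 hL0 hc (hsing N hN.1 hNe) (hseg.trans hM0)
      have hN0 : (0 : ℝ) < N := by exact_mod_cast (by omega : 0 < N)
      rw [← hLd] at h1
      have h2 : (Q : ℝ) ^ 2 * (64 * X / L ^ (2 * A + 6)) ≤ ((Q : ℝ) ^ 2 / L ^ A) * (c ^ 2 * N / L ^ 4) := by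
        have h3 : 64 * X / L ^ (2 * A + 6) ≤ 1 / L ^ A * (c ^ 2 * N / L ^ 4) := by
          have h4 : (X : ℝ) ≤ N * L ^ (A + 1) := (div_le_iff₀ (by positivity)).1 hNX
          have h5 : 64 ≤ c ^ 2 * L := by
            rw [div_le_iff₀ (by positivity)] at hLc
            linarith
          rw [div_le_iff₀ (by positivity)]
          have h6 : 1 / L ^ A * (c ^ 2 * N / L ^ 4) * L ^ (2 * A + 6) = (c ^ 2 * L) * (N * L ^ (A + 1)) := by
            rw [show 2 * A + 6 = A + (A + 1) + 1 + 4 by ring, pow_add, pow_add, pow_add]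
            field_simp
          rw [h6]
          exact mul_le_mul h5 h4 hX0.le (by positivity)
        calc (Q : ℝ) ^ 2 * (64 * X / L ^ (2 * A + 6)) ≤ (Q : ℝ) ^ 2 * (1 / L ^ A * (c ^ 2 * N / L ^ 4)) :=
              mul_le_mul_of_nonneg_left h3 (by positivity)
          _ = _ := by ring
      have h7 := h1.trans h2
      exact le_of_mul_le_mul_right h7 (by positivity)
    · intro u v hv
      have hvK : ∀ q r, v q r ≤ K := fun q r => Nat.le_floor (hv q r)
      refine (segment hg hQK u v hvK).trans (hM0.trans ?_)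
      rw [div_le_div_iff₀ (by positivity) (by positivity)]
      have h1 : 64 * L ^ A ≤ L ^ (2 * A + 6) := by
        calc 64 * L ^ A ≤ L * L ^ A := mul_le_mul_of_nonneg_right (by linarith) (by positivity)
          _ = L ^ (A + 1) := by rw [pow_succ]; ring
          _ ≤ L ^ (2 * A + 6) := pow_le_pow_right₀ hL1 (by omega)
      calc 64 * (X : ℝ) * L ^ A = X * (64 * L ^ A) := by ring
        _ ≤ X * L ^ (2 * A + 6) := mul_le_mul_of_nonneg_left h1 hX0.le
  have hsub : (Icc 1 X).filter (fun N => Even N ∧ ¬ Holds A B X N) ⊆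
      (Icc 1 X).filter (fun N => ¬ Good15 (2 * A + 6) B X K 1 N) ∪ Icc 1 ⌊(X : ℝ) / L ^ (A + 1)⌋₊ := by
    intro N hN
    rw [mem_filter] at hN
    rw [mem_union, mem_filter]
    by_contra hcon
    refine hN.2.2 (hgood N hN.1 hN.2.1 ?_ ?_)
    · by_contra h
      exact hcon (Or.inr (mem_Icc.2 ⟨(mem_Icc.1 hN.1).1, Nat.le_floor (not_le.1 h).le⟩))
    · by_contra h
      exact hcon (Or.inl ⟨hN.1, h⟩)
  have hcard := (card_le_card hsub).trans (card_union_le _ _)
  have hcard' : (((Icc 1 X).filter (fun N => Even N ∧ ¬ Holds A B X N)).card : ℝ) ≤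
      (((Icc 1 X).filter (fun N => ¬ Good15 (2 * A + 6) B X K 1 N)).card : ℝ) + ((Icc 1 ⌊(X : ℝ) / L ^ (A + 1)⌋₊).card : ℝ) := by
    exact_mod_cast hcard
  have h2 : ((Icc 1 ⌊(X : ℝ) / L ^ (A + 1)⌋₊).card : ℝ) ≤ (X : ℝ) / L ^ (A + 1) := by
    rw [Nat.card_Icc, Nat.add_sub_cancel]
    exact Nat.floor_le (by positivity)
  have h3 : (X : ℝ) / L ^ (2 * A + 6) ≤ X / L ^ (A + 1) :=
    div_le_div_of_nonneg_left hX0.le (by positivity) (pow_le_pow_right₀ hL1 (by omega))
  have h4 : 2 * ((X : ℝ) / L ^ (A + 1)) ≤ X / L ^ A := by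
    rw [pow_succ, ← div_div]
    have h5 : 0 ≤ (X : ℝ) / L ^ A := by positivity
    rw [mul_div_assoc', div_le_iff₀ hL0]
    nlinarith
  have hexc' : (((Icc 1 X).filter (fun N => ¬ Good15 (2 * A + 6) B X K 1 N)).card : ℝ) ≤ X / L ^ (2 * A + 6) := by
    convert hexc using 3
  linarith

end Pool.Agent.Results.MP_b58c63_nt.AlmostAllAllModuli
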